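import Pool.Agent.MWKP.StmtsN

set_option autoImplicit false

/-!
# MWKP part N, row NMN: the words `x y t m` are preserved (period `n`), twin of MWK NMC (helper23)
-/

namespace Pool.Agent.MWKP.H45

open Pool.Agent.Helper14_MV Pool.Agent.Helper2_MV Pool.Agent.MWK Pool.Agent.MWKP
open Pool.Agent.MWF (gaml)

theorem nt {β : FIC} {u v w : List ℕ} (h : RR β u v) (h' : RR β v w) : RR β u w := β.trans h h'

/-- a letter which occurs before may be repeated `n` more times -/
theorem dblx {n : ℕ} {β : FIC} (g : Gn n β) (A q : List ℕ) (x : ℕ) (hx : x ∈ A) :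
    RR β (A ++ x :: q) (A ++ (List.replicate (n + 1) x ++ q)) := by
  obtain ⟨A1, A2, rfl⟩ := List.append_of_mem hx
  have h1 := g.gm.sub (fun c => if c = 0 then [x] else A2)
  have e1 : List.flatMap (fun c => if c = 0 then [x] else A2) [0, 1, 0] = x :: (A2 ++ [x]) := by
    simp
  have e0 : ∀ k : ℕ, List.flatMap (fun c => if c = 0 then [x] else A2) (List.replicate k 0) =
      List.replicate k x := by
    intro k
    induction k with
    | zero => rfl
    | succ k ih =>
      rw [List.replicate_succ, List.flatMap_cons, ih]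
      simp [List.replicate_succ]
  have e2 : List.flatMap (fun c => if c = 0 then [x] else A2)
      (0 :: 1 :: List.replicate (n + 1) 0) = x :: (A2 ++ List.replicate (n + 1) x) := by
    rw [List.flatMap_cons, List.flatMap_cons, e0]
    simp
  rw [e1, e2] at h1
  have h2 := ((RR.refl (β := β) A1).append h1).append (RR.refl (β := β) q)
  have e3 : A1 ++ x :: (A2 ++ [x]) ++ q = A1 ++ x :: A2 ++ x :: q := by simp
  have e4 : A1 ++ x :: (A2 ++ List.replicate (n + 1) x) ++ q =
      A1 ++ x :: A2 ++ (List.replicate (n + 1) x ++ q) := by simp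
  rw [e3, e4] at h2
  exact h2

/-- exchange of `0` and `1` which occur before -/
theorem exch {n : ℕ} {β : FIC} (g : Gn n β) (hc : Rn n β) (A q : List ℕ)
    (h0 : 0 ∈ A) (h1 : 1 ∈ A) : RR β (A ++ 0 :: 1 :: q) (A ++ 1 :: 0 :: q) := by
  have s1 := dblx g A (1 :: q) 0 h0
  have s2 := dblx g (A ++ List.replicate (n + 1) 0) q 1 (List.mem_append_left _ h1)
  have s3 := ((RR.refl (β := β) A).append hc).append (RR.refl (β := β) q)
  have s4 := dblx g A (0 :: q) 1 h1
  have s5 := dblx g (A ++ List.replicate (n + 1) 1) q 0 (List.mem_append_left _ h0)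
  have e2 : A ++ List.replicate (n + 1) 0 ++ 1 :: q = A ++ (List.replicate (n + 1) 0 ++ 1 :: q) := by
    simp only [List.append_assoc]
  have e2' : A ++ List.replicate (n + 1) 0 ++ (List.replicate (n + 1) 1 ++ q) =
      A ++ (List.replicate (n + 1) 0 ++ List.replicate (n + 1) 1) ++ q := by
    simp only [List.append_assoc]
  have e5 : A ++ List.replicate (n + 1) 1 ++ 0 :: q = A ++ (List.replicate (n + 1) 1 ++ 0 :: q) := by
    simp only [List.append_assoc]
  have e5' : A ++ List.replicate (n + 1) 1 ++ (List.replicate (n + 1) 0 ++ q) =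
      A ++ (List.replicate (n + 1) 1 ++ List.replicate (n + 1) 0) ++ q := by
    simp only [List.append_assoc]
  rw [e2, e2'] at s2
  rw [e5, e5'] at s5
  exact nt s1 (nt s2 (nt s3 (nt s5.symm s4.symm)))

/-- behind a word with `0` and `1` these letters commute -/
theorem prm {n : ℕ} {β : FIC} (g : Gn n β) (hc : Rn n β) {m m1 : List ℕ} (hp : m.Perm m1) :
    ∀ A : List ℕ, 0 ∈ A → 1 ∈ A → (∀ c ∈ m, c = 0 ∨ c = 1) → RR β (A ++ m) (A ++ m1) := by
  induction hp with
  | nil => intro A _ _ _; exact RR.refl _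
  | cons c _ ih =>
    rename_i l1 l2 _
    intro A h0 h1 hm
    have h2 := ih (A ++ [c]) (List.mem_append_left _ h0) (List.mem_append_left _ h1)
      (fun d hd => hm d (List.mem_cons_of_mem _ hd))
    have e : A ++ [c] ++ l1 = A ++ c :: l1 := by simp
    have e' : A ++ [c] ++ l2 = A ++ c :: l2 := by simp
    rw [e, e'] at h2
    exact h2
  | swap c d l =>
    intro A h0 h1 hm
    have hd := hm d List.mem_cons_self
    have hc' := hm c (List.mem_cons_of_mem _ List.mem_cons_self)
    rcases hd with rfl | rfl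
    · rcases hc' with rfl | rfl
      · exact RR.refl _
      · exact exch g hc A l h0 h1
    · rcases hc' with rfl | rfl
      · exact (exch g hc A l h0 h1).symm
      · exact RR.refl _
  | trans p1 _ ih1 ih2 =>
    intro A h0 h1 hm
    exact nt (ih1 A h0 h1 hm) (ih2 A h0 h1 fun c hc => hm c (p1.mem_iff.2 hc))

/-- reduction of the exponent -/
theorem red {n : ℕ} {β : FIC} (g : Gn n β) (A : List ℕ) (x : ℕ) (hx : x ∈ A) (q : List ℕ) :
    ∀ s : ℕ, RR β (A ++ (List.replicate (1 + n * s) x ++ q)) (A ++ x :: q)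
  | 0 => by
    have e : List.replicate (1 + n * 0) x ++ q = x :: q := by simp
    rw [e]
    exact RR.refl _
  | s + 1 => by
    have h1 := dblx g A (List.replicate (n * s) x ++ q) x hx
    have e1 : List.replicate (n + 1) x ++ (List.replicate (n * s) x ++ q) =
        List.replicate (1 + n * (s + 1)) x ++ q := by
      rw [← List.append_assoc, ← List.replicate_add]
      have : n + 1 + n * s = 1 + n * (s + 1) := by ring
      rw [this]
    have e2 : x :: (List.replicate (n * s) x ++ q) = List.replicate (1 + n * s) x ++ q := by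
      rw [Nat.add_comm 1, List.replicate_succ, List.cons_append]
    rw [e1, e2] at h1
    exact nt h1.symm (red g A x hx q s)

/-- sorting: the letters of `m` and `u` behind `A` -/
theorem srt {n : ℕ} {β : FIC} (g : Gn n β) (hc : Rn n β) (A m : List ℕ) (h0 : 0 ∈ A) (h1 : 1 ∈ A)
    (hm : ∀ c ∈ m, c = 0 ∨ c = 1) :
    RR β (A ++ m) (A ++ (List.replicate (m.count 0) 0 ++ List.replicate (m.count 1) 1)) := by
  refine prm g hc ?_ A h0 h1 hm
  rw [List.perm_iff_count]
  intro c
  rw [List.count_append, List.count_replicate, List.count_replicate]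
  by_cases c0 : c = 0
  · subst c0
    simp
  · by_cases c1 : c = 1
    · subst c1
      simp
    · have h2 : c ∉ m := fun h => (hm c h).elim c0 c1
      rw [List.count_eq_zero_of_not_mem h2]
      have h3 : ¬ (0 : ℕ) = c := fun h => c0 h.symm
      have h4 : ¬ (1 : ℕ) = c := fun h => c1 h.symm
      simp [h3, h4]

/-- the case `x y t m ~ y x t m'` -/
theorem bad {n : ℕ} {β : FIC} (g : Gn n β) (hc : Rn n β) (m m' : List ℕ)
    (hm : ∀ c ∈ m, c = 0 ∨ c = 1) (hm' : ∀ c ∈ m', c = 0 ∨ c = 1)
    (h : RR β (0 :: 1 :: 2 :: m) (1 :: 0 :: 2 :: m')) : RR β [0, 1, 2, 0, 1] [1, 0, 2, 0, 1] := by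
  set i := m.count 0 with hi
  set j := m.count 1 with hj
  set i' := m'.count 0 with hi'
  set j' := m'.count 1 with hj'
  have hn := g.pos
  have fl : ∀ (l : List ℕ) (a : ℕ), l.filter (fun c => decide (c = a)) =
      List.replicate (l.count a) a := by
    intro l a
    rw [List.filter_eq]
  have z0 := h.filter (fun c => decide (c = 0))
  have z1 := h.filter (fun c => decide (c = 1))
  rw [fl, fl] at z0 z1
  have c1 : (0 :: 1 :: 2 :: m).count 0 = i + 1 := by simp [hi]
  have c2 : (1 :: 0 :: 2 :: m').count 0 = i' + 1 := by simp [hi']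
  have c3 : (0 :: 1 :: 2 :: m).count 1 = j + 1 := by simp [hj]
  have c4 : (1 :: 0 :: 2 :: m').count 1 = j' + 1 := by simp [hj']
  rw [c1, c2] at z0
  rw [c3, c4] at z1
  -- exponents
  obtain ⟨M, hM⟩ : ∃ M, (i + i' + 1) + M = 1 + n * (i + i' + 1) :=
    ⟨1 + n * (i + i' + 1) - (i + i' + 1), by
      have : (i + i' + 1) ≤ n * (i + i' + 1) := Nat.le_mul_of_pos_left _ hn
      omega⟩
  obtain ⟨M', hM'⟩ : ∃ M, (j + j' + 1) + M = 1 + n * (j + j' + 1) :=
    ⟨1 + n * (j + j' + 1) - (j + j' + 1), by
      have : (j + j' + 1) ≤ n * (j + j' + 1) := Nat.le_mul_of_pos_left _ hn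
      omega⟩
  set T := List.replicate M 0 ++ List.replicate M' 1 with hT
  -- both sides with the appended powers
  have a1 : RR β (0 :: 1 :: 2 :: (m ++ (List.replicate (i' + 1) 0 ++ (List.replicate (j' + 1) 1 ++ T))))
      (1 :: 0 :: 2 :: (m' ++ (List.replicate (i + 1) 0 ++ (List.replicate (j + 1) 1 ++ T)))) :=
    h.append (z0.symm.append (z1.symm.append (RR.refl T)))
  have key : ∀ (A l : List ℕ), 0 ∈ A → 1 ∈ A → (∀ c ∈ l, c = 0 ∨ c = 1) →
      l.count 0 = 1 + n * (i + i' + 1) → l.count 1 = 1 + n * (j + j' + 1) →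
        RR β (A ++ l) (A ++ [0, 1]) := by
    intro A l h0 h1 hl l0 l1
    have s1 := srt g hc A l h0 h1 hl
    rw [l0, l1] at s1
    have s2 := red g A 0 h0 (List.replicate (1 + n * (j + j' + 1)) 1) (i + i' + 1)
    have s3 := red g (A ++ [0]) 1 (List.mem_append_left _ h1) [] (j + j' + 1)
    rw [List.append_nil] at s3
    have e1 : A ++ [0] ++ List.replicate (1 + n * (j + j' + 1)) 1 =
        A ++ 0 :: List.replicate (1 + n * (j + j' + 1)) 1 := by simp
    have e2 : A ++ [0] ++ [1] = A ++ [0, 1] := by simp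
    rw [e1, e2] at s3
    exact nt s1 (nt s2 s3)
  have mt : ∀ (l : List ℕ) (a b : ℕ), (∀ c ∈ l, c = 0 ∨ c = 1) →
      ∀ c ∈ l ++ (List.replicate a 0 ++ (List.replicate b 1 ++ T)), c = 0 ∨ c = 1 := by
    intro l a b hl c hc'
    simp only [hT, List.mem_append, List.mem_replicate] at hc'
    rcases hc' with h | ⟨_, h⟩ | ⟨_, h⟩ | ⟨_, h⟩ | ⟨_, h⟩
    · exact hl c h
    · exact Or.inl h
    · exact Or.inr h
    · exact Or.inl h
    · exact Or.inr h
  have ct0 : ∀ (l : List ℕ) (a b : ℕ),
      (l ++ (List.replicate a 0 ++ (List.replicate b 1 ++ T))).count 0 = l.count 0 + a + M := by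
    intro l a b
    simp [hT, List.count_append, List.count_replicate]
    omega
  have ct1 : ∀ (l : List ℕ) (a b : ℕ),
      (l ++ (List.replicate a 0 ++ (List.replicate b 1 ++ T))).count 1 = l.count 1 + b + M' := by
    intro l a b
    simp [hT, List.count_append, List.count_replicate]
    omega
  have k1 := key [0, 1, 2] (m ++ (List.replicate (i' + 1) 0 ++ (List.replicate (j' + 1) 1 ++ T)))
    (by decide) (by decide) (mt m _ _ hm) (by rw [ct0]; omega) (by rw [ct1]; omega)
  have k2 := key [1, 0, 2] (m' ++ (List.replicate (i + 1) 0 ++ (List.replicate (j + 1) 1 ++ T)))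
    (by decide) (by decide) (mt m' _ _ hm') (by rw [ct0]; omega) (by rw [ct1]; omega)
  exact nt k1.symm (nt a1 k2)

theorem filt (m : List ℕ) (a b : ℕ) (hab : a ≠ b) (hm : ∀ c ∈ m, c = a ∨ c = b) (ha : a ∈ m) :
    ∃ k, 1 ≤ k ∧ m.filter (fun c => decide (c ≠ b)) = List.replicate k a := by
  refine ⟨(m.filter (fun c => decide (c ≠ b))).length, ?_, ?_⟩
  · refine List.length_pos_of_mem (a := a) ?_
    rw [List.mem_filter]
    exact ⟨ha, by simpa using hab⟩
  · refine List.eq_replicate_of_mem fun c hc => ?_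
    rw [List.mem_filter] at hc
    rcases hm c hc.1 with h | h
    · exact h
    · exfalso
      exact (by simpa using hc.2 : c ≠ b) h

/-- a list of `0`, `1` whose filters are `[0]` and `[1]` -/
theorem two_case (b : List ℕ) (h0 : b.filter (fun c => decide (c ≠ 1)) = [0])
    (h1 : b.filter (fun c => decide (c ≠ 0)) = [1]) : b = [0, 1] ∨ b = [1, 0] := by
  have key : ∀ (l : List ℕ) (p : ℕ), l.filter (fun c => decide (c ≠ p)) = [] →
      ∀ c ∈ l, c = p := by
    intro l p h c hc
    by_contra h2
    have h3 : c ∈ l.filter (fun c => decide (c ≠ p)) := by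
      rw [List.mem_filter]
      exact ⟨hc, by simpa using h2⟩
    rw [h] at h3
    exact absurd h3 List.not_mem_nil
  cases b with
  | nil => simp at h0
  | cons x b =>
    by_cases hx0 : x = 0
    · subst hx0
      left
      rw [List.filter_cons_of_pos (by decide)] at h0
      rw [List.filter_cons_of_neg (by decide)] at h1
      have h2 := (List.cons.inj h0).2
      have h3 := key b 1 h2
      have h4 : b.filter (fun c => decide (c ≠ 0)) = b := by
        rw [List.filter_eq_self]
        intro c hc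
        rw [h3 c hc]
        decide
      rw [h4] at h1
      rw [h1]
    · right
      have hx1 : x = 1 := by
        by_contra h
        rw [List.filter_cons_of_pos (by simpa using h)] at h0
        exact hx0 (List.cons.inj h0).1
      subst hx1
      rw [List.filter_cons_of_neg (by decide)] at h0
      rw [List.filter_cons_of_pos (by decide)] at h1
      have h2 := (List.cons.inj h1).2
      have h3 := key b 0 h2
      have h4 : b.filter (fun c => decide (c ≠ 1)) = b := by
        rw [List.filter_eq_self]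
        intro c hc
        rw [h3 c hc]
        decide
      rw [h4] at h0
      rw [h0]

theorem nmn (_h1 : PwnStmt) (_h2 : CtnStmt) (hNTY : NtnStmt) : NmnStmt := by
  intro n β g hc hn w w' h hw
  obtain ⟨m, rfl, hm, m0, m1⟩ := hw
  -- the two filters
  obtain ⟨k, hk, ek⟩ := filt m 0 1 (by decide) hm m0
  obtain ⟨l, hl, el⟩ := filt m 1 0 (by decide) (fun c hcm => (hm c hcm).symm) m1
  have f1 := h.filter (fun c => decide (c ≠ 1))
  have f0 := h.filter (fun c => decide (c ≠ 0))
  have g1 : (0 :: 1 :: 2 :: m).filter (fun c => decide (c ≠ 1)) = 0 :: 2 :: List.replicate k 0 := by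
    rw [List.filter_cons_of_pos (by decide), List.filter_cons_of_neg (by decide),
      List.filter_cons_of_pos (by decide), ek]
  have g0 : (0 :: 1 :: 2 :: m).filter (fun c => decide (c ≠ 0)) = 1 :: 2 :: List.replicate l 1 := by
    rw [List.filter_cons_of_neg (by decide), List.filter_cons_of_pos (by decide),
      List.filter_cons_of_pos (by decide), el]
  rw [g1] at f1
  rw [g0] at f0
  obtain ⟨k', hk', ek'⟩ := hNTY n β g 0 2 (by decide) k _ hk f1
  obtain ⟨l', hl', el'⟩ := hNTY n β g 1 2 (by decide) l _ hl f0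
  -- the position of `2`
  have h2 : 2 ∈ w' := by
    have h3 : 2 ∈ w'.filter (fun c => decide (c ≠ 1)) := by
      rw [ek']
      simp
    exact (List.mem_filter.1 h3).1
  obtain ⟨b, m', e, hb2⟩ : ∃ b m', w' = b ++ 2 :: m' ∧ 2 ∉ b := by
    obtain ⟨s, t, h4, h5⟩ := List.eq_append_cons_of_mem h2
    exact ⟨s, t, h4, h5⟩
  rw [e, List.filter_append, List.filter_cons_of_pos (by decide)] at ek' el'
  have a1' := (List.append_cons_inj_of_notMem (x₁ := [0]) (z₁ := List.replicate k' 0)
    (x₂ := b.filter (fun c => decide (c ≠ 1))) (z₂ := m'.filter (fun c => decide (c ≠ 1)))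
    (a₁ := 2) (a₂ := 2) (by decide) (by
      intro h9
      exact absurd (List.eq_of_mem_replicate h9) (by decide))).1 ek'.symm
  have a0' := (List.append_cons_inj_of_notMem (x₁ := [1]) (z₁ := List.replicate l' 1)
    (x₂ := b.filter (fun c => decide (c ≠ 0))) (z₂ := m'.filter (fun c => decide (c ≠ 0)))
    (a₁ := 2) (a₂ := 2) (by decide) (by
      intro h9
      exact absurd (List.eq_of_mem_replicate h9) (by decide))).1 el'.symm
  have a1 := And.intro a1'.1.symm (And.intro a1'.2.1.symm a1'.2.2.symm)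
  have a0 := And.intro a0'.1.symm (And.intro a0'.2.1.symm a0'.2.2.symm)
  have hm' : ∀ c ∈ m', c = 0 ∨ c = 1 := by
    intro c hcm
    by_cases h7 : c = 1
    · exact Or.inr h7
    · left
      have h8 : c ∈ m'.filter (fun c => decide (c ≠ 1)) := by
        rw [List.mem_filter]
        exact ⟨hcm, by simpa using h7⟩
      rw [a1.2.2] at h8
      exact List.eq_of_mem_replicate h8
  have m0' : 0 ∈ m' := by
    have h8 : 0 ∈ m'.filter (fun c => decide (c ≠ 1)) := by
      rw [a1.2.2, List.mem_replicate]
      exact ⟨by omega, rfl⟩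
    exact (List.mem_filter.1 h8).1
  have m1' : 1 ∈ m' := by
    have h8 : 1 ∈ m'.filter (fun c => decide (c ≠ 0)) := by
      rw [a0.2.2, List.mem_replicate]
      exact ⟨by omega, rfl⟩
    exact (List.mem_filter.1 h8).1
  rcases two_case b a1.1 a0.1 with rfl | rfl
  · exact ⟨m', by rw [e]; rfl, hm', m0', m1'⟩
  · exfalso
    apply hn
    rw [e] at h
    exact bad g hc m m' hm hm' h

end Pool.Agent.MWKP.H45
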